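import Mathlib

/-!
Problem MP_7100ec_nt, Q1 (disproof).  For every real `x` in the open interval
`(135773/143716, 10786/11417)` the procedure produces `c₁, c₂, c₃ = 2, 5, 22` and
`b₁, b₂, b₃ = 2, 24, 23`, so that `b₃ < b₂`.
-/

namespace Pool.Agent.Results.MP_7100ec_nt.NotMonotone

/-- The remainders of the regular continued fraction algorithm on `(0, 1]`:
`rem y 0 = y` and `rem y (n + 1)` is the fractional part of `1 / rem y n`. -/
noncomputable def rem (y : ℝ) : ℕ → ℝ
  | 0 => y
  | n + 1 => Int.fract (1 / rem y n)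

open Classical in
/-- The `n`-th partial quotient `a_n(y)` of `y = [a_1, a_2, …]` (`n ≥ 1`): it is
`⌊1 / rem y (n - 1)⌋` if `rem y (n - 1) ≠ 0`, and undefined (`none`) otherwise. -/
noncomputable def pquot (y : ℝ) (n : ℕ) : Option ℕ :=
  if rem y (n - 1) = 0 then none else some ⌊1 / rem y (n - 1)⌋₊

/-- The value of the finite continued fraction `[l_1, …, l_n]` (it is `0` for the empty list). -/
noncomputable def cfval : List ℕ → ℝ
  | [] => 0
  | a :: l => 1 / ((a : ℝ) + cfval l)

/-- The procedure: `run x n` is the pair of lists `([c_1, …, c_n], [b_1, …, b_n])` computed by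
`c_{k+1} = a_{k+1}(x - [b_1, …, b_k]) + 1` (so `c_1 = a_1(x) + 1`) and
`b_{k+1} = a_{k+1}(x - [c_1, …, c_{k+1}])`; it is `none` if a required partial quotient does not
exist. -/
noncomputable def run (x : ℝ) : ℕ → Option (List ℕ × List ℕ)
  | 0 => some ([], [])
  | n + 1 => (run x n).bind fun s =>
      (pquot (x - cfval s.2) (n + 1)).bind fun a =>
        (pquot (x - cfval (s.1 ++ [a + 1])) (n + 1)).bind fun b =>
          some (s.1 ++ [a + 1], s.2 ++ [b])

lemma step_floor {y lo hi : ℝ} (a : ℕ) (hlo : 0 < lo) (h1 : lo < y) (h2 : y < hi)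
    (h3 : (a : ℝ) ≤ 1 / hi) (h4 : 1 / lo ≤ a + 1) : ⌊1 / y⌋ = a := by
  have hy : 0 < y := hlo.trans h1
  have h5 : 1 / hi < 1 / y := one_div_lt_one_div_of_lt hy h2
  have h6 : 1 / y < 1 / lo := one_div_lt_one_div_of_lt hlo h1
  rw [Int.floor_eq_iff]
  constructor
  · push_cast; linarith
  · push_cast; linarith

lemma step_nfloor {y lo hi : ℝ} (a : ℕ) (hlo : 0 < lo) (h1 : lo < y) (h2 : y < hi)
    (h3 : (a : ℝ) ≤ 1 / hi) (h4 : 1 / lo ≤ a + 1) : ⌊1 / y⌋₊ = a := by
  have hy : 0 < y := hlo.trans h1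
  have h := step_floor a hlo h1 h2 h3 h4
  rw [← Int.floor_toNat, h]
  simp

lemma step_fract {y lo hi : ℝ} (a : ℕ) (hlo : 0 < lo) (h1 : lo < y) (h2 : y < hi)
    (h3 : (a : ℝ) ≤ 1 / hi) (h4 : 1 / lo ≤ a + 1) :
    1 / hi - a < Int.fract (1 / y) ∧ Int.fract (1 / y) < 1 / lo - a := by
  have hy : 0 < y := hlo.trans h1
  have h5 : 1 / hi < 1 / y := one_div_lt_one_div_of_lt hy h2
  have h6 : 1 / y < 1 / lo := one_div_lt_one_div_of_lt hlo h1
  have h7 : Int.fract (1 / y) = 1 / y - a := by
    rw [Int.fract, step_floor a hlo h1 h2 h3 h4]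
    push_cast
    ring
  rw [h7]
  constructor <;> linarith

lemma pquot_one {y lo hi : ℝ} (a : ℕ) (hlo : 0 < lo) (h1 : lo < y) (h2 : y < hi)
    (h3 : (a : ℝ) ≤ 1 / hi) (h4 : 1 / lo ≤ a + 1) : pquot y 1 = some a := by
  have hy : y ≠ 0 := (hlo.trans h1).ne'
  unfold pquot
  simp only [Nat.sub_self, rem, hy, if_false, Option.some.injEq]
  exact step_nfloor a hlo h1 h2 h3 h4

lemma rem_succ' (y : ℝ) (n : ℕ) : rem y (n + 1) = rem (Int.fract (1 / y)) n := by
  induction n with
  | zero => rfl
  | succ n ih =>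
    change Int.fract (1 / rem y (n + 1)) = Int.fract (1 / rem (Int.fract (1 / y)) n)
    rw [ih]

lemma pquot_succ (y : ℝ) (n : ℕ) : pquot y (n + 2) = pquot (Int.fract (1 / y)) (n + 1) := by
  unfold pquot
  have : n + 2 - 1 = n + 1 := rfl
  rw [this, Nat.add_sub_cancel, rem_succ']

lemma step_fract' {y lo hi : ℝ} (a : ℕ) (lo' hi' : ℝ) (hlo : 0 < lo) (h1 : lo < y) (h2 : y < hi)
    (h3 : (a : ℝ) ≤ 1 / hi) (h4 : 1 / lo ≤ a + 1) (e1 : lo' = 1 / hi - a) (e2 : hi' = 1 / lo - a) :
    lo' < Int.fract (1 / y) ∧ Int.fract (1 / y) < hi' := by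
  rw [e1, e2]; exact step_fract a hlo h1 h2 h3 h4

/-- **Result.**  For every real `x` with `135773/143716 < x < 10786/11417` (so `x ∈ (0, 1]`) the
procedure yields `(c₁, c₂, c₃) = (2, 5, 22)` and `(b₁, b₂, b₃) = (2, 24, 23)`; in particular
`b₃ < b₂`. -/
theorem result (x : ℝ) (h1 : 135773 / 143716 < x) (h2 : x < 10786 / 11417) :
    (0 < x ∧ x ≤ 1) ∧ run x 3 = some ([2, 5, 22], [2, 24, 23]) := by
  refine ⟨⟨by linarith, by linarith⟩, ?_⟩
  have v2 : cfval [2] = 1 / 2 := by norm_num [cfval]
  have v25 : cfval [2, 5] = 5 / 11 := by norm_num [cfval]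
  have v2522 : cfval [2, 5, 22] = 111 / 244 := by norm_num [cfval]
  have v224 : cfval [2, 24] = 24 / 49 := by norm_num [cfval]
  -- `c₁`
  have c1 : pquot (x - cfval []) (0 + 1) = some 1 := by
    have : x - cfval [] = x := by simp [cfval]
    rw [this]
    exact pquot_one (lo := 135773 / 143716) (hi := 10786 / 11417) 1 (by norm_num) h1 h2
      (by norm_num) (by norm_num)
  -- `b₁`
  have b1 : pquot (x - cfval [2]) (0 + 1) = some 2 := by
    rw [v2]
    exact pquot_one (lo := 63915 / 143716) (hi := 10155 / 22834) 2 (by norm_num)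
      (by linarith) (by linarith) (by norm_num) (by norm_num)
  -- `c₂`
  have c2 : pquot (x - cfval [2]) (1 + 1) = some 4 := by
    rw [v2, show 1 + 1 = 0 + 2 from rfl, pquot_succ]
    have s := step_fract' (y := x - 1 / 2) (lo := 63915 / 143716) (hi := 10155 / 22834) 2
      (2524 / 10155) (15886 / 63915)
      (by norm_num) (by linarith) (by linarith) (by norm_num) (by norm_num)
      (by norm_num) (by norm_num)
    exact pquot_one 4 (by norm_num) s.1 s.2 (by norm_num) (by norm_num)
  -- `b₂`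
  have b2 : pquot (x - cfval [2, 5]) (1 + 1) = some 24 := by
    rw [v25, show 1 + 1 = 0 + 2 from rfl, pquot_succ]
    have s := step_fract' (y := x - 5 / 11) (lo := 774923 / 1580876) (hi := 61561 / 125587) 2
      (2465 / 61561) (31030 / 774923)
      (by norm_num) (by linarith) (by linarith) (by norm_num) (by norm_num)
      (by norm_num) (by norm_num)
    exact pquot_one 24 (by norm_num) s.1 s.2 (by norm_num) (by norm_num)
  -- `c₃`
  have c3 : pquot (x - cfval [2, 24]) (2 + 1) = some 21 := by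
    rw [v224, show 2 + 1 = 1 + 2 from rfl, pquot_succ, show 1 + 1 = 0 + 2 from rfl, pquot_succ]
    have s := step_fract' (y := x - 24 / 49) (lo := 3203693 / 7042084) (hi := 106 / 233) 2
      (21 / 106) (634698 / 3203693)
      (by norm_num) (by linarith) (by linarith) (by norm_num) (by norm_num)
      (by norm_num) (by norm_num)
    have s' := step_fract' 5 (30203 / 634698) (1 / 21)
      (by norm_num) s.1 s.2 (by norm_num) (by norm_num) (by norm_num) (by norm_num)
    exact pquot_one 21 (by norm_num) s'.1 s'.2 (by norm_num) (by norm_num)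
  -- `b₃`
  have b3 : pquot (x - cfval [2, 5, 22]) (2 + 1) = some 23 := by
    rw [v2522, show 2 + 1 = 1 + 2 from rfl, pquot_succ, show 1 + 1 = 0 + 2 from rfl, pquot_succ]
    have s := step_fract' (y := x - 111 / 244) (lo := 577 / 1178) (hi := 1364497 / 2785748) 2
      (56754 / 1364497) (24 / 577)
      (by norm_num) (by linarith) (by linarith) (by norm_num) (by norm_num)
      (by norm_num) (by norm_num)
    have s' := step_fract' 24 (1 / 24) (2401 / 56754)
      (by norm_num) s.1 s.2 (by norm_num) (by norm_num) (by norm_num) (by norm_num)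
    exact pquot_one 23 (by norm_num) s'.1 s'.2 (by norm_num) (by norm_num)
  have r1 : run x 1 = some ([2], [2]) := by
    change (some (([] : List ℕ), ([] : List ℕ))).bind _ = _
    simp only [Option.bind_some, c1, List.nil_append]
    rw [b1]
    rfl
  have r2 : run x 2 = some ([2, 5], [2, 24]) := by
    change (run x 1).bind _ = _
    rw [r1]
    simp only [Option.bind_some, c2, List.cons_append, List.nil_append]
    rw [b2]
    rfl
  change (run x 2).bind _ = _
  rw [r2]
  simp only [Option.bind_some, c3, List.cons_append, List.nil_append]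
  rw [b3]
  rfl

end Pool.Agent.Results.MP_7100ec_nt.NotMonotone
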